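import Pool.Agent.Y504.CO.Stm6
import Pool.Agent.Y117.CO.NW

/-!
# Project CO, job PE: nondegenerate periodic orbits persist
-/

set_option autoImplicit false

open scoped Manifold ContDiff Topology
open Filter Set Metric

universe u

namespace Pool.Agent.Y429.CO.PE

open Pool.Agent.H718R2.G Pool.Agent.TH80.OMS Pool.Agent.Y504.CO

/-- a diffeomorphism in two charts -/
theorem cda2 {n : ℕ} {N : Type u} [TopologicalSpace N] [ChartedSpace (V n) N] {r : ℕ∞}
    (hr : 1 ≤ r) (g : DiffM n N r) {ψ ψ' : OpenPartialHomeomorph N (V n)}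
    (hψ : ψ ∈ IsManifold.maximalAtlas (𝓡 n) ∞ N) (hψ' : ψ' ∈ IsManifold.maximalAtlas (𝓡 n) ∞ N)
    {x : V n} (hx : x ∈ ψ.target) (hx' : g (ψ.symm x) ∈ ψ'.source) :
    ContDiffAt ℝ 1 (fun v => ψ' (g (ψ.symm v))) x := by
  have h1 : ContMDiffAt (𝓡 n) (𝓡 n) 1 ψ.symm x :=
    ((contMDiffOn_symm_of_mem_maximalAtlas hψ).contMDiffAt (ψ.open_target.mem_nhds hx)).of_le
      (by norm_num)
  have h2 : ContMDiffAt (𝓡 n) (𝓡 n) 1 g (ψ.symm x) :=
    (g.contMDiff.contMDiffAt).of_le (by exact_mod_cast hr)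
  have h3 : ContMDiffAt (𝓡 n) (𝓡 n) 1 ψ' (g (ψ.symm x)) :=
    ((contMDiffOn_of_mem_maximalAtlas hψ').contMDiffAt (ψ'.open_source.mem_nhds hx')).of_le
      (by norm_num)
  exact (contMDiffAt_iff_contDiffAt.1 (h3.comp x (h2.comp x h1)))

/-- the Newton method on a product -/
theorem newton {n k : ℕ} (T : Fin k → V n → V n) (B : Fin k → V n →L[ℝ] V n)
    (y : Fin k → V n) (ν : Fin k → Fin k) (c ρ : ℝ) (hc : 0 < c) (hρ : 0 < ρ)
    (hL : ∀ w : Fin k → V n, c * ‖w‖ ≤ ‖fun i => w (ν i) - B i (w i)‖)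
    (hd : ∀ i, ∀ x ∈ closedBall (y i) ρ, DifferentiableAt ℝ (T i) x)
    (hB : ∀ i, ∀ x ∈ closedBall (y i) ρ, ‖fderiv ℝ (T i) x - B i‖ ≤ c / 2)
    (hy : ∀ i, ‖y (ν i) - T i (y i)‖ ≤ c / 2 * ρ) :
    ∃ v : Fin k → V n, (∀ i, v i ∈ closedBall (y i) ρ) ∧ ∀ i, v (ν i) = T i (v i) := by
  have hmem : ∀ x ∈ closedBall y ρ, ∀ i, x i ∈ closedBall (y i) ρ := by
    intro x hx i
    rw [mem_closedBall] at hx ⊢
    exact (dist_le_pi_dist x y i).trans hx
  obtain ⟨v, hv, hv0⟩ := Pool.Agent.Y117.CO.NW.main (Fin k → V n) (Fin k → V n) rfl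
    (fun v i => v (ν i) - T i (v i))
    (fun x => ContinuousLinearMap.pi fun i =>
      (ContinuousLinearMap.proj (ν i) : (Fin k → V n) →L[ℝ] V n) -
        (fderiv ℝ (T i) (x i)) ∘L (ContinuousLinearMap.proj i : (Fin k → V n) →L[ℝ] V n))
    y
    (ContinuousLinearMap.pi fun i =>
      (ContinuousLinearMap.proj (ν i) : (Fin k → V n) →L[ℝ] V n) -
        (B i) ∘L (ContinuousLinearMap.proj i : (Fin k → V n) →L[ℝ] V n))
    c ρ hc hρ (fun w => hL w)
    (fun x hx => by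
      rw [hasFDerivAt_pi]
      intro i
      have h1 : HasFDerivAt (fun v : Fin k → V n => v (ν i))
          (ContinuousLinearMap.proj (ν i) : (Fin k → V n) →L[ℝ] V n) x := hasFDerivAt_apply (ν i) x
      have h2 : HasFDerivAt (fun v : Fin k → V n => v i)
          (ContinuousLinearMap.proj i : (Fin k → V n) →L[ℝ] V n) x := hasFDerivAt_apply i x
      exact h1.sub ((hd i (x i) (hmem x hx i)).hasFDerivAt.comp x h2))
    (fun x hx => by
      refine ContinuousLinearMap.opNorm_le_bound _ (by positivity) fun w => ?_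
      rw [pi_norm_le_iff_of_nonneg (by positivity)]
      intro i
      have h1 : ((ContinuousLinearMap.pi fun i =>
          (ContinuousLinearMap.proj (ν i) : (Fin k → V n) →L[ℝ] V n) -
            (fderiv ℝ (T i) (x i)) ∘L (ContinuousLinearMap.proj i : (Fin k → V n) →L[ℝ] V n)) -
          (ContinuousLinearMap.pi fun i =>
          (ContinuousLinearMap.proj (ν i) : (Fin k → V n) →L[ℝ] V n) -
            (B i) ∘L (ContinuousLinearMap.proj i : (Fin k → V n) →L[ℝ] V n))) w i =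
          -((fderiv ℝ (T i) (x i) - B i) (w i)) := by
        show (w (ν i) - fderiv ℝ (T i) (x i) (w i)) - (w (ν i) - B i (w i)) =
          -(fderiv ℝ (T i) (x i) (w i) - B i (w i))
        abel
      rw [h1, norm_neg]
      refine (ContinuousLinearMap.le_opNorm _ _).trans ?_
      exact mul_le_mul (hB i (x i) (hmem x hx i)) (norm_le_pi_norm w i) (norm_nonneg _)
        (by positivity))
    (by
      rw [pi_norm_le_iff_of_nonneg (by positivity)]
      exact hy)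
  refine ⟨v, hmem v hv, fun i => ?_⟩
  have h1 := congrFun hv0 i
  exact sub_eq_zero.mp h1

/-- injective maps are bounded below -/
theorem lower {n k : ℕ} (B : Fin k → V n →L[ℝ] V n) (ν : Fin k → Fin k)
    (h : ∀ w : Fin k → V n, (∀ i, w (ν i) = B i (w i)) → w = 0) :
    ∃ c : ℝ, 0 < c ∧ ∀ w : Fin k → V n, c * ‖w‖ ≤ ‖fun i => w (ν i) - B i (w i)‖ := by
  obtain ⟨L, hL⟩ : ∃ L : (Fin k → V n) →L[ℝ] (Fin k → V n), ∀ w, L w =
      fun i => w (ν i) - B i (w i) :=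
    ⟨ContinuousLinearMap.pi fun i =>
      (ContinuousLinearMap.proj (ν i) : (Fin k → V n) →L[ℝ] V n) -
        (B i) ∘L (ContinuousLinearMap.proj i : (Fin k → V n) →L[ℝ] V n), fun w => rfl⟩
  have hker : LinearMap.ker (L : (Fin k → V n) →ₗ[ℝ] (Fin k → V n)) = ⊥ := by
    rw [LinearMap.ker_eq_bot']
    intro w hw
    apply h
    intro i
    have h1 : L w = 0 := hw
    rw [hL] at h1
    exact sub_eq_zero.mp (congrFun h1 i)
  obtain ⟨K, hK, hK'⟩ := LinearMap.exists_antilipschitzWith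
    (L : (Fin k → V n) →ₗ[ℝ] (Fin k → V n)) hker
  have hK0 : (0 : ℝ) < K := by exact_mod_cast hK
  refine ⟨1 / K, by positivity, fun w => ?_⟩
  have h1 := hK'.le_mul_dist w 0
  have h2 : (L : (Fin k → V n) →ₗ[ℝ] (Fin k → V n)) w = fun i => w (ν i) - B i (w i) := hL w
  rw [map_zero, dist_zero_right, dist_zero_right, h2] at h1
  rw [div_mul_eq_mul_div, one_mul, div_le_iff₀ hK0, mul_comm]
  exact h1

/-- closeness of order 1 -/
theorem close1 {n : ℕ} {f g : V n → V n} {x : V n} {ε : ℝ}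
    (h : ∀ m : ℕ, m ≤ 1 → ‖iteratedFDeriv ℝ m f x - iteratedFDeriv ℝ m g x‖ < ε) :
    ‖f x - g x‖ ≤ ε ∧ ‖fderiv ℝ f x - fderiv ℝ g x‖ ≤ ε := by
  have hε : 0 ≤ ε := (norm_nonneg _).trans (h 0 (by norm_num)).le
  constructor
  · have h0 := (h 0 (by norm_num)).le
    have h1 := (iteratedFDeriv ℝ 0 f x - iteratedFDeriv ℝ 0 g x).le_opNorm (fun _ => (0 : V n))
    have h2 : (iteratedFDeriv ℝ 0 f x - iteratedFDeriv ℝ 0 g x) (fun _ => (0 : V n)) =
        f x - g x := by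
      rw [sub_apply, iteratedFDeriv_zero_apply, iteratedFDeriv_zero_apply]
    rw [h2] at h1
    simpa using h1.trans (by simpa using h0)
  · have h0 := (h 1 le_rfl).le
    refine ContinuousLinearMap.opNorm_le_bound _ hε fun v => ?_
    have h1 := (iteratedFDeriv ℝ 1 f x - iteratedFDeriv ℝ 1 g x).le_opNorm (fun _ => v)
    have h2 : (iteratedFDeriv ℝ 1 f x - iteratedFDeriv ℝ 1 g x) (fun _ => v) =
        (fderiv ℝ f x - fderiv ℝ g x) v := by
      rw [sub_apply, iteratedFDeriv_one_apply, iteratedFDeriv_one_apply]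
      rfl
    rw [h2] at h1
    have h3 : ∏ _i : Fin 1, ‖v‖ = ‖v‖ := by simp
    rw [h3] at h1
    exact h1.trans (mul_le_mul_of_nonneg_right h0 (norm_nonneg _))

theorem main : S_PE := by
  intro n N _ _ _ _ _ r hr g p k ψ hND O hO hpO
  obtain ⟨hk, hp, hψk, hψm, hsrc, hnd⟩ := hND
  -- notation
  obtain ⟨Y, hY⟩ : ∃ Y : ℕ → V n, ∀ i, Y i = ψ i (g^[i] p) := ⟨_, fun _ => rfl⟩
  obtain ⟨T, hT⟩ : ∃ T : ℕ → V n → V n, ∀ i, T i = fun v => ψ (i + 1) (g ((ψ i).symm v)) :=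
    ⟨_, fun _ => rfl⟩
  obtain ⟨B, hB⟩ : ∃ B : ℕ → V n →L[ℝ] V n, ∀ i, B i = fderiv ℝ (T i) (Y i) := ⟨_, fun _ => rfl⟩
  obtain ⟨ν, hν⟩ : ∃ ν : Fin k → Fin k, ∀ i, ν i = ⟨((i : ℕ) + 1) % k, Nat.mod_lt _ hk⟩ :=
    ⟨_, fun _ => rfl⟩
  have hYk : Y k = Y 0 := by
    rw [hY, hY, hp, hψk]
    rfl
  have hYsym : ∀ i ≤ k, (ψ i).symm (Y i) = g^[i] p := fun i hi => by
    rw [hY, (ψ i).left_inv (hsrc i hi)]
  have hYmod : ∀ i < k, Y ((i + 1) % k) = Y (i + 1) := by
    intro i hi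
    rcases Nat.lt_or_ge (i + 1) k with h | h
    · rw [Nat.mod_eq_of_lt h]
    · have h1 : i + 1 = k := by omega
      rw [h1, Nat.mod_self, hYk]
  have hTY : ∀ i < k, T i (Y i) = Y (i + 1) := by
    intro i hi
    rw [hT]
    show ψ (i + 1) (g ((ψ i).symm (Y i))) = Y (i + 1)
    rw [hYsym i hi.le, hY, Function.iterate_succ_apply']
  -- the lower bound
  obtain ⟨c, hc, hL⟩ := lower (fun i : Fin k => B i) ν (by
    intro w hw
    obtain ⟨W, hW⟩ : ∃ W : ℕ → V n, ∀ j, W j = w ⟨j % k, Nat.mod_lt _ hk⟩ := ⟨_, fun _ => rfl⟩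
    have hstep : ∀ i < k, W (i + 1) = B i (W i) := by
      intro i hi
      have h1 := hw ⟨i, hi⟩
      rw [hν] at h1
      rw [hW, hW]
      have h2 : (⟨i % k, Nat.mod_lt _ hk⟩ : Fin k) = ⟨i, hi⟩ :=
        Fin.ext (Nat.mod_eq_of_lt hi)
      rw [h2]
      exact h1
    have h0 : W 0 = 0 := by
      refine hnd W ?_ ?_
      · rw [hW, hW]
        congr 1
        exact Fin.ext (show k % k = 0 % k by rw [Nat.mod_self, Nat.zero_mod])
      · intro i hi
        rw [hstep i hi, hB, hT, hY]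
    have hall : ∀ i ≤ k, W i = 0 := by
      intro i
      induction i with
      | zero => exact fun _ => h0
      | succ i ih =>
        intro hi
        rw [hstep i (by omega), ih (by omega), map_zero]
    funext i
    have h1 := hall i i.2.le
    rw [hW] at h1
    have h2 : (⟨(i : ℕ) % k, Nat.mod_lt _ hk⟩ : Fin k) = i := Fin.ext (Nat.mod_eq_of_lt i.2)
    rw [h2] at h1
    exact h1)
  -- the radius
  have hcd : ∀ i < k, ContDiffAt ℝ 1 (T i) (Y i) := by
    intro i hi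
    rw [hT]
    refine cda2 hr g (hψm i) (hψm (i + 1)) ?_ ?_
    · rw [hY]
      exact (ψ i).map_source (hsrc i hi.le)
    · rw [hYsym i hi.le, ← Function.iterate_succ_apply' g i p]
      exact hsrc (i + 1) hi
  have hS : ∀ i : Fin k, {x : V n | x ∈ (ψ i).target ∧
      g ((ψ i).symm x) ∈ (ψ ((i : ℕ) + 1)).source ∧ ‖fderiv ℝ (T i) x - B i‖ ≤ c / 8 ∧
      ((i : ℕ) = 0 → (ψ i).symm x ∈ O)} ∈ 𝓝 (Y i) := by
    intro i
    have ht : Y i ∈ (ψ i).target := by
      rw [hY]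
      exact (ψ i).map_source (hsrc i i.2.le)
    have hcs : ContinuousAt (ψ i).symm (Y i) := (ψ i).continuousAt_symm ht
    have a1 : ∀ᶠ x in 𝓝 (Y i), x ∈ (ψ i).target := (ψ i).open_target.mem_nhds ht
    have a2 : ∀ᶠ x in 𝓝 (Y i), g ((ψ i).symm x) ∈ (ψ ((i : ℕ) + 1)).source := by
      have c1 : ContinuousAt (fun x => g ((ψ i).symm x)) (Y i) :=
        ContinuousAt.comp (g := g) (f := (ψ i).symm) g.continuous.continuousAt hcs
      apply c1.eventually
      apply (ψ ((i : ℕ) + 1)).open_source.mem_nhds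
      show g ((ψ i).symm (Y i)) ∈ (ψ ((i : ℕ) + 1)).source
      rw [hYsym i i.2.le, ← Function.iterate_succ_apply' g i p]
      exact hsrc (i + 1) i.2
    have a3 : ∀ᶠ x in 𝓝 (Y i), ‖fderiv ℝ (T i) x - B i‖ ≤ c / 8 := by
      have c1 : ContinuousAt (fderiv ℝ (T i)) (Y i) :=
        ((hcd i i.2).fderiv_right (m := 0) (by norm_num)).continuousAt
      have c2 := (Metric.continuousAt_iff'.1 c1) (c / 8) (by positivity)
      filter_upwards [c2] with x hx
      rw [dist_eq_norm, ← hB] at hx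
      exact hx.le
    have a4 : ∀ᶠ x in 𝓝 (Y i), (i : ℕ) = 0 → (ψ i).symm x ∈ O := by
      by_cases h0 : (i : ℕ) = 0
      · have h1 : (ψ i).symm (Y i) ∈ O := by
          rw [hYsym i i.2.le, h0]
          exact hpO
        filter_upwards [hcs.eventually (hO.mem_nhds h1)] with x hx _
        exact hx
      · exact Eventually.of_forall fun x h => absurd h h0
    filter_upwards [a1, a2, a3, a4] with x h1 h2 h3 h4
    exact ⟨h1, h2, h3, h4⟩
  obtain ⟨ρ, hρS, hρ⟩ : ∃ ρ : ℝ, (∀ i : Fin k, closedBall (Y i) ρ ⊆ {x : V n | x ∈ (ψ i).target ∧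
      g ((ψ i).symm x) ∈ (ψ ((i : ℕ) + 1)).source ∧ ‖fderiv ℝ (T i) x - B i‖ ≤ c / 8 ∧
      ((i : ℕ) = 0 → (ψ i).symm x ∈ O)}) ∧ 0 < ρ := by
    have h1 : ∀ᶠ ρ in 𝓝[>] (0 : ℝ), ∀ i : Fin k, closedBall (Y i) ρ ⊆
        {x : V n | x ∈ (ψ i).target ∧ g ((ψ i).symm x) ∈ (ψ ((i : ℕ) + 1)).source ∧
          ‖fderiv ℝ (T i) x - B i‖ ≤ c / 8 ∧ ((i : ℕ) = 0 → (ψ i).symm x ∈ O)} :=
      eventually_all.2 fun i => (eventually_closedBall_subset (hS i)).filter_mono nhdsWithin_le_nhds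
    exact (h1.and self_mem_nhdsWithin).exists
  obtain ⟨ε, hεd⟩ : ∃ ε : ℝ, ε = min (c / 8) (c * ρ / 4) := ⟨_, rfl⟩
  have hε : 0 < ε := by
    rw [hεd]
    exact lt_min (by positivity) (by positivity)
  have hε1 : ε ≤ c / 8 := by
    rw [hεd]
    exact min_le_left _ _
  have hε2 : ε ≤ c * ρ / 4 := by
    rw [hεd]
    exact min_le_right _ _
  -- the neighbourhood
  let D : StrongData n N :=
    { ι := Fin k
      φ := fun i => ψ i
      ψ := fun i => ψ ((i : ℕ) + 1)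
      K := fun i => (ψ i).symm '' closedBall (Y i) ρ
      ε := fun _ => ε
      φ_mem := fun i => hψm i
      ψ_mem := fun i => hψm _
      lf := locallyFinite_of_finite _
      compact := fun i => (isCompact_closedBall _ _).image_of_continuousOn
        ((ψ i).continuousOn_symm.mono fun x hx => (hρS i hx).1)
      sub := by
        rintro i _ ⟨x, hx, rfl⟩
        exact (ψ i).map_target (hρS i hx).1
      pos := fun _ => hε }
  have hgs : ∀ i, ∀ x ∈ D.K i, g x ∈ (D.ψ i).source := by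
    rintro i _ ⟨x, hx, rfl⟩
    exact (hρS i hx).2.1
  refine ⟨strongNbhd D 1 g, ?_, ?_, ?_⟩
  · exact TopologicalSpace.GenerateOpen.basic _ ⟨D, 1, g, by exact_mod_cast hr, hgs, rfl⟩
  · intro i x hx
    refine ⟨hgs i x hx, fun m _ => ?_⟩
    rw [sub_self, norm_zero]
    exact hε
  intro g' hg'
  obtain ⟨T', hT'⟩ : ∃ T' : ℕ → V n → V n, ∀ i, T' i = fun v => ψ (i + 1) (g' ((ψ i).symm v)) :=
    ⟨_, fun _ => rfl⟩
  have hg1 : ∀ i : Fin k, ∀ x ∈ closedBall (Y i) ρ, g' ((ψ i).symm x) ∈ (ψ ((i : ℕ) + 1)).source :=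
    fun i x hx => (hg' i ((ψ i).symm x) ⟨x, hx, rfl⟩).1
  have hg2 : ∀ i : Fin k, ∀ x ∈ closedBall (Y i) ρ,
      ‖T' i x - T i x‖ ≤ ε ∧ ‖fderiv ℝ (T' i) x - fderiv ℝ (T i) x‖ ≤ ε := by
    intro i x hx
    have h1 := (hg' i ((ψ i).symm x) ⟨x, hx, rfl⟩).2
    have h2 : (ψ i) ((ψ i).symm x) = x := (ψ i).right_inv (hρS i hx).1
    refine close1 fun m hm => ?_
    have h3 := h1 m hm
    rw [hT', hT]
    have h4 : (D.φ i) ((ψ i).symm x) = x := h2
    rw [h4] at h3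
    exact h3
  obtain ⟨v, hv1, hv2⟩ := newton (fun i : Fin k => T' i) (fun i : Fin k => B i)
    (fun i : Fin k => Y i) ν c ρ hc hρ hL
    (fun i x hx => by
      rw [hT']
      exact (cda2 hr g' (hψm i) (hψm ((i : ℕ) + 1)) (hρS i hx).1 (hg1 i x hx)).differentiableAt
        (by norm_num))
    (fun i x hx => by
      have h1 := (hg2 i x hx).2
      have h2 := (hρS i hx).2.2.1
      have h3 : fderiv ℝ (T' i) x - B i =
          (fderiv ℝ (T' i) x - fderiv ℝ (T i) x) + (fderiv ℝ (T i) x - B i) := by abel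
      rw [h3]
      exact (norm_add_le _ _).trans (by linarith))
    (fun i => by
      have h1 := (hg2 i (Y i) (mem_closedBall_self hρ.le)).1
      have h2 : Y ((ν i : Fin k) : ℕ) = T i (Y i) := by
        rw [hTY i i.2, hν]
        exact hYmod i i.2
      show ‖Y ((ν i : Fin k) : ℕ) - T' i (Y i)‖ ≤ c / 2 * ρ
      rw [h2, norm_sub_rev]
      have h3 : 0 < c * ρ := by positivity
      linarith)
  have h0k : 0 < k := hk
  obtain ⟨Wv, hWv⟩ : ∃ W : ℕ → V n, ∀ j, W j = v ⟨j % k, Nat.mod_lt _ hk⟩ := ⟨_, fun _ => rfl⟩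
  have hWi : ∀ i (hi : i < k), Wv i = v ⟨i, hi⟩ := fun i hi => by
    rw [hWv]
    congr 1
    exact Fin.ext (Nat.mod_eq_of_lt hi)
  have horb : ∀ j ≤ k, g'^[j] ((ψ 0).symm (Wv 0)) = (ψ j).symm (Wv j) := by
    intro j
    induction j with
    | zero => exact fun _ => rfl
    | succ j ih =>
      intro hj
      have hjk : j < k := by omega
      rw [Function.iterate_succ_apply', ih hjk.le]
      have h1 := hv2 ⟨j, hjk⟩
      rw [hν] at h1
      have h2 : Wv (j + 1) = T' j (Wv j) := by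
        rw [hWv (j + 1), hWi j hjk]
        exact h1
      rw [h2, hT']
      have h3 : Wv j ∈ closedBall (Y j) ρ := by
        rw [hWi j hjk]
        exact hv1 ⟨j, hjk⟩
      exact ((ψ (j + 1)).left_inv (hg1 ⟨j, hjk⟩ (Wv j) h3)).symm
  refine ⟨(ψ 0).symm (Wv 0), ?_, k, hk, ?_⟩
  · have h3 : Wv 0 ∈ closedBall (Y 0) ρ := by
      rw [hWi 0 h0k]
      exact hv1 ⟨0, h0k⟩
    exact (hρS ⟨0, h0k⟩ h3).2.2.2 rfl
  · rw [horb k le_rfl, hψk]
    congr 1
    rw [hWv, hWv]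
    congr 1
    exact Fin.ext (show k % k = 0 % k by rw [Nat.mod_self, Nat.zero_mod])

end Pool.Agent.Y429.CO.PE
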